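import Mathlib

set_option autoImplicit false

namespace Pool.Agent.Results.MP_cf426b_al.Diam

/-- The commuting graph: vertices are the non-central elements, distinct commuting ones adjacent. -/
def commGraph (S : Type) [Semigroup S] : SimpleGraph {x : S // ¬ ∀ s : S, x * s = s * x} where
  Adj x y := x ≠ y ∧ x.1 * y.1 = y.1 * x.1
  symm := ⟨fun _ _ h => ⟨h.1.symm, h.2.symm⟩⟩
  loopless := ⟨fun _ h => h.1 rfl⟩

inductive T : Type
  | g (a : Bool) (m : ℤ) (f : Bool)
  | p (i : ℤ) (e : Bool) (j : ℤ) (c : Bool)
  | o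
  deriving DecidableEq

def sg (a : Bool) (k : ℤ) : ℤ := if a then -k else k

def mul : T → T → T
  | .g a m f, .g a' m' f' => .g (xor a a') (m + sg a m') (xor f f')
  | .g a m f, .p i e j c => .p (sg a i + m) (xor f e) j c
  | .p i e j c, .g a m f => .p i e (sg a (j - m)) (xor c f)
  | .p i e j _, .p k _ l c' => if j - k ≤ 1 ∧ k - j ≤ 1 then .o else .p i e l c'
  | .o, _ => .o
  | _, .o => .o

theorem assoc (x y z : T) : mul (mul x y) z = mul x (mul y z) := by
  rcases x with ⟨a, m, f⟩ | ⟨i, e, j, c⟩ | _ <;> rcases y with ⟨a', m', f'⟩ | ⟨i', e', j', c'⟩ | _ <;>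
    rcases z with ⟨a'', m'', f''⟩ | ⟨i'', e'', j'', c''⟩ | _ <;> simp only [mul]
  · cases a <;> cases a' <;> simp [sg] <;> ring
  · cases a <;> cases a' <;> simp [sg] <;> ring
  · split_ifs <;> rfl
  · cases a' <;> cases a'' <;> simp [sg] <;> ring
  · cases a' <;> simp only [sg] <;> split_ifs <;> first | rfl | (exfalso; simp_all; done) | (exfalso; simp at *; omega)
  · split_ifs <;> rfl
  · split_ifs <;> simp only [mul] <;> split_ifs <;> rfl
  · split_ifs <;> rfl

instance : Semigroup T where
  mul := mul
  mul_assoc := assoc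

theorem mdef (x y : T) : x * y = mul x y := rfl

theorem gen : Subsemigroup.closure
    (({.g true 0 false, .g true 1 false, .g false 0 true, .p 0 false 0 false} : Finset T) : Set T)
      = ⊤ := by
  set C := Subsemigroup.closure
    (({.g true 0 false, .g true 1 false, .g false 0 true, .p 0 false 0 false} : Finset T) : Set T)
  have r0 : T.g true 0 false ∈ C := Subsemigroup.subset_closure (by simp)
  have r1 : T.g true 1 false ∈ C := Subsemigroup.subset_closure (by simp)
  have z : T.g false 0 true ∈ C := Subsemigroup.subset_closure (by simp)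
  have p0 : T.p 0 false 0 false ∈ C := Subsemigroup.subset_closure (by simp)
  have t : ∀ m : ℤ, T.g false m false ∈ C := by
    intro m
    induction m using Int.induction_on with
    | zero => simpa [mdef, mul, sg] using C.mul_mem z z
    | succ n ih => simpa [mdef, mul, sg] using C.mul_mem ih (C.mul_mem r1 r0)
    | pred n ih => simpa [mdef, mul, sg, sub_eq_add_neg] using C.mul_mem ih (C.mul_mem r0 r1)
  have t' : ∀ (m : ℤ) (f : Bool), T.g false m f ∈ C := by
    intro m f
    cases f
    · exact t m
    · simpa [mdef, mul, sg] using C.mul_mem (t m) z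
  rw [eq_top_iff]
  rintro (⟨a, m, f⟩ | ⟨i, e, j, c⟩ | _) -
  · cases a
    · exact t' m f
    · simpa [mdef, mul, sg] using C.mul_mem (t' m f) r0
  · simpa [mdef, mul, sg] using C.mul_mem (C.mul_mem (t' i e) p0) (t' (-j) c)
  · simpa [mdef, mul, sg] using C.mul_mem p0 p0

abbrev V := {x : T // ¬ ∀ s : T, x * s = s * x}

def vp (i : ℤ) (e : Bool) (j : ℤ) (c : Bool) : V :=
  ⟨.p i e j c, fun h => by simpa [mdef, mul, sg] using h (.g false 0 true)⟩

def vz : V := ⟨.g false 0 true, fun h => by simpa [mdef, mul, sg] using h (.p 0 false 0 false)⟩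

def vr (m : ℤ) : V := ⟨.g true m false, fun h => by
  have := h (.g false 1 false)
  simp [mdef, mul, sg] at this
  omega⟩

theorem reach_of_comm (x y : V) (h : x.1 * y.1 = y.1 * x.1) : (commGraph T).Reachable x y := by
  by_cases e : x = y
  · rw [e]
  · exact SimpleGraph.Adj.reachable ⟨e, h⟩

theorem reach_g (x : V) (a : Bool) (m : ℤ) (f : Bool) (h : x.1 = .g a m f) :
    (commGraph T).Reachable x vz :=
  reach_of_comm _ _ (by rw [h]; cases a <;> simp [vz, mdef, mul, sg])

theorem reach_p (n : ℕ) : ∀ (i : ℤ) (e : Bool) (j : ℤ) (c : Bool), (j - i).natAbs = n →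
    (commGraph T).Reachable (vp i e j c) vz := by
  induction n with
  | zero =>
    intro i e j c h
    have : j = i := by omega
    subst this
    refine (reach_of_comm _ (vr (2 * j)) ?_).trans (reach_g _ true _ false rfl)
    simp [vp, vr, mdef, mul, sg]
    omega
  | succ n ih =>
    intro i e j c h
    refine (reach_of_comm _ (vp j e (if i < j then i + 1 else i - 1) c) ?_).trans
      (ih _ _ _ _ (by split_ifs <;> omega))
    simp only [vp, mdef, mul]
    rw [if_pos (by omega), if_pos (by split_ifs <;> omega)]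

theorem conn : (commGraph T).Connected := by
  have h : ∀ x : V, (commGraph T).Reachable x vz := by
    rintro ⟨⟨a, m, f⟩ | ⟨i, e, j, c⟩ | _, hx⟩
    · exact reach_g _ a m f rfl
    · exact reach_p _ i e j c rfl
    · exact absurd (fun s => by cases s <;> rfl) hx
  have : Nonempty V := ⟨vz⟩
  exact ⟨fun x y => (h x).trans (h y).symm⟩

def φ : T → ℕ
  | .p i _ j _ => (j - i).natAbs
  | _ => 0

theorem lip (x y : V) (h : (commGraph T).Adj x y) : φ x.1 ≤ φ y.1 + 2 := by
  obtain ⟨hne, h⟩ := h
  obtain ⟨⟨a, m, f⟩ | ⟨i, e, j, c⟩ | _, hx⟩ := x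
  · simp [φ]
  · obtain ⟨⟨a, m, f⟩ | ⟨k, e', l, c'⟩ | _, hy⟩ := y
    · cases a
      · simp only [mdef, mul, sg, T.p.injEq] at h
        exfalso
        apply hy
        have h1 : m = 0 := by simp at h; omega
        have h2 : f = false := by have := h.2.1; revert this; cases f <;> cases e <;> simp
        subst h1 h2
        intro s
        cases s <;> simp [mdef, mul, sg]
      · simp only [mdef, mul, sg, T.p.injEq] at h
        simp only [φ]
        simp at h
        omega
    · simp only [mdef, mul] at h
      simp only [φ]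
      split_ifs at h with h1 h2 h2
      · omega
      · simp only [T.p.injEq] at h
        omega
    · exact absurd (fun s => by cases s <;> rfl) hy
  · simp [φ]

theorem walk (x y : V) (w : (commGraph T).Walk x y) : φ x.1 ≤ φ y.1 + 2 * w.length := by
  induction w with
  | nil => simp
  | cons h _ ih =>
    have := lip _ _ h
    rw [SimpleGraph.Walk.length_cons]
    omega

/-- A semigroup with four generators whose commuting graph is connected of infinite diameter. -/
theorem result : ∃ (S : Type) (_ : Semigroup S),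
    (∃ A : Finset S, A.card ≤ 4 ∧ Subsemigroup.closure (A : Set S) = ⊤) ∧
    (commGraph S).Connected ∧ (commGraph S).ediam = ⊤ := by
  refine ⟨T, inferInstance, ⟨_, Finset.card_le_four, gen⟩, conn, ?_⟩
  by_contra h
  obtain ⟨n, hn⟩ := ENat.ne_top_iff_exists.mp h
  obtain ⟨w, hw⟩ := conn.exists_walk_length_eq_edist (vp 0 false (2 * n + 1) false) vz
  have h1 := walk _ _ w
  have h2 : (w.length : ℕ∞) ≤ n := by rw [hw, hn]; exact SimpleGraph.edist_le_ediam
  have h3 : w.length ≤ n := by exact_mod_cast h2
  have h4 : φ (vp 0 false (2 * n + 1) false).1 = 2 * n + 1 := by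
    simp only [vp, φ]
    omega
  have h5 : φ vz.1 = 0 := rfl
  omega

end Pool.Agent.Results.MP_cf426b_al.Diam
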